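import Pool.Agent.H41.PS.Stm

set_option autoImplicit false

/-! TRN: `trn u ml` is the translation by `u`. -/

namespace Pool.Agent.H233.PS

open Pool.Agent.H41.PS

/-- the sum of the shifts -/
def fo (u : ℕ) : ML → ℕ
  | .nil => 0
  | .cons _ s t => bif Nat.beq (Nat.land u s) 0 then fo u t else fo u t ^^^ s

theorem trn_nil (u X : ℕ) : trn u .nil X = X := rfl

theorem trn_cons (u m s X : ℕ) (t : ML) : trn u (.cons m s t) X =
    bif Nat.beq (Nat.land u s) 0 then trn u t X else trn u t (sw m s X) := by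
  change (Bool.rec (fc (trn u t) (sw m s X)) (trn u t X) (Nat.beq (Nat.land u s) 0) : ℕ) = _
  cases Nat.beq (Nat.land u s) 0
  · exact fc_eq _ _
  · rfl

theorem fo_lt (u : ℕ) (l : ML) (h : MLOK l) : fo u l < 2 ^ 13 := by
  induction l with
  | nil => exact Nat.two_pow_pos 13
  | cons m s t ih =>
    obtain ⟨⟨j, hj, hs, -⟩, ht⟩ := h
    have h1 := ih ht
    unfold fo
    cases Nat.beq (Nat.land u s) 0
    · refine Nat.xor_lt_two_pow h1 ?_
      rw [hs]
      exact Nat.pow_lt_pow_right (by norm_num) (by omega)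
    · exact h1

theorem trn_fo (hSW : S_SW) (u : ℕ) (l : ML) (h : MLOK l) : ∀ X : ℕ, X < 2 ^ 8192 →
    trn u l X < 2 ^ 8192 ∧ ∀ i < 8192, (trn u l X).testBit i = X.testBit (i ^^^ fo u l) := by
  induction l with
  | nil =>
    intro X hX
    rw [trn_nil]
    exact ⟨hX, fun i _ => by rw [fo, Nat.xor_zero]⟩
  | cons m s t ih =>
    intro X hX
    obtain ⟨hm, ht⟩ := h
    rw [trn_cons, fo]
    cases Nat.beq (Nat.land u s) 0
    · obtain ⟨h1, h2⟩ := hSW m s X hm hX
      obtain ⟨h3, h4⟩ := ih ht (sw m s X) h1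
      refine ⟨h3, fun i hi => ?_⟩
      have h5 : i ^^^ fo u t < 8192 := Nat.xor_lt_two_pow (n := 13) hi (fo_lt u t ht)
      have h6 := h4 i hi
      rw [h2 _ h5] at h6
      rw [cond_false, cond_false, h6, Nat.xor_assoc]
    · exact ih ht X hX

theorem fo_ml : ∀ u < 256, fo u ml = u := by
  decide +kernel

/-- TRN -/
theorem t_TRN : S_MASK → S_SW → S_TRN := by
  intro hM hS u X hu hX
  have h := trn_fo hS u ml hM X hX
  rwa [fo_ml u hu] at h

end Pool.Agent.H233.PS
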